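import Mathlib

set_option autoImplicit false

namespace Pool.Agent.H.MP_03548f_an

open MeasureTheory Set

lemma nml_le {q ε : ℝ} (h0 : 0 ≤ q) (h1 : q ≤ 1) (hε : 0 < ε) (g : ℝ) :
    Real.negMulLog q ≤ ε + (q * (1 - g) ^ 2 + (1 - q) * g ^ 2) / ε := by
  obtain ⟨r, hr0, rfl⟩ : ∃ r : ℝ, 0 ≤ r ∧ q = r ^ 2 := ⟨√q, Real.sqrt_nonneg _, (Real.sq_sqrt h0).symm⟩
  have hr1 : r ≤ 1 := by nlinarith
  have a1 : Real.negMulLog (r ^ 2) ≤ 2 * (r * (1 - r)) := by
    rcases hr0.eq_or_lt with rfl | hr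
    · simp
    · have h := Real.log_le_sub_one_of_pos (inv_pos.2 hr)
      rw [Real.log_inv] at h
      have e : r * r⁻¹ = 1 := mul_inv_cancel₀ hr.ne'
      rw [Real.negMulLog, Real.log_pow]
      push_cast
      have h2 := mul_le_mul_of_nonneg_left h (show 0 ≤ 2 * r ^ 2 by positivity)
      have e2 : 2 * r ^ 2 * (r⁻¹ - 1) = 2 * (r * (1 - r)) := by
        have : r ^ 2 * r⁻¹ = r := by rw [sq, mul_assoc, e, mul_one]
        linear_combination 2 * this
      linarith
  have a2 : (r * (1 - r)) ^ 2 ≤ r ^ 2 * (1 - g) ^ 2 + (1 - r ^ 2) * g ^ 2 := by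
    have b1 : (r * (1 - r)) ^ 2 ≤ r ^ 2 * (1 - r ^ 2) := by
      rw [mul_pow]
      exact mul_le_mul_of_nonneg_left (by nlinarith) (by positivity)
    nlinarith [sq_nonneg (g - r ^ 2)]
  have a3 : 2 * (r * (1 - r)) ≤ ε + (r * (1 - r)) ^ 2 / ε := by
    rw [← sub_le_iff_le_add', le_div_iff₀ hε]
    nlinarith [sq_nonneg (r * (1 - r) - ε)]
  have a4 := div_le_div_of_nonneg_right a2 hε.le
  linarith

lemma step_pt {m : ℕ} (s : Fin m → ℝ) (hs : ∀ a, 0 ≤ s a) {ε : ℝ} (hε : 0 < ε) (g : Fin m → ℝ) :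
    ∑ a, Real.negMulLog (s a) ≤ Real.negMulLog (∑ a, s a) + m * ε * ∑ a, s a +
      (∑ a, ∑ b, s b * ((if b = a then 1 else 0) - g a) ^ 2) / ε := by
  set p := ∑ a, s a with hp
  have hsp : ∀ a, s a ≤ p := fun a => Finset.single_le_sum (fun b _ => hs b) (Finset.mem_univ a)
  have hp0 : 0 ≤ p := Finset.sum_nonneg fun a _ => hs a
  have hin : ∀ a, ∑ b, s b * ((if b = a then 1 else 0) - g a) ^ 2 =
      s a * (1 - g a) ^ 2 + (p - s a) * g a ^ 2 := by
    intro a
    have : ∀ b, s b * ((if b = a then 1 else 0) - g a) ^ 2 =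
        (if b = a then s b * ((1 - g a) ^ 2 - g a ^ 2) else 0) + s b * g a ^ 2 := by
      intro b; split_ifs <;> ring
    simp only [this, Finset.sum_add_distrib, Finset.sum_ite_eq', Finset.mem_univ, if_true,
      ← Finset.sum_mul, ← hp]
    ring
  simp only [hin]
  rcases hp0.eq_or_lt with h0 | hpos
  · have : ∀ a, s a = 0 := fun a => le_antisymm (by linarith [hsp a]) (hs a)
    simp [this, ← h0]
  · have key : ∀ a, Real.negMulLog (s a) ≤ s a / p * Real.negMulLog p + ε * p +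
        (s a * (1 - g a) ^ 2 + (p - s a) * g a ^ 2) / ε := by
      intro a
      have e1 : s a = p * (s a / p) := by field_simp
      have h1 := nml_le (q := s a / p) (div_nonneg (hs a) hp0) ((div_le_one hpos).2 (hsp a)) hε (g a)
      have h2 := mul_le_mul_of_nonneg_left h1 hp0
      have e2 : p * (ε + (s a / p * (1 - g a) ^ 2 + (1 - s a / p) * g a ^ 2) / ε) =
          ε * p + (s a * (1 - g a) ^ 2 + (p - s a) * g a ^ 2) / ε := by field_simp
      have e3 := Real.negMulLog_mul p (s a / p)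
      rw [← e1] at e3
      linarith
    refine (Finset.sum_le_sum fun a _ => key a).trans (le_of_eq ?_)
    rw [Finset.sum_add_distrib, Finset.sum_add_distrib, ← Finset.sum_mul, ← Finset.sum_div,
      ← Finset.sum_div, ← hp, div_self hpos.ne', Finset.sum_const, Finset.card_univ,
      Fintype.card_fin, nsmul_eq_mul]
    ring

section
variable {Ω : Type} [MeasurableSpace Ω] (μ : Measure Ω) [IsProbabilityMeasure μ]

noncomputable def pr {U : Type} (W : Ω → U) (w : U) : ℝ := μ.real (W ⁻¹' {w})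

noncomputable def ent {U : Type} [Fintype U] (W : Ω → U) : ℝ := ∑ w, Real.negMulLog (pr μ W w)

omit [IsProbabilityMeasure μ] in
lemma pr_nonneg {U : Type} (W : Ω → U) (w : U) : 0 ≤ pr μ W w := measureReal_nonneg

lemma bridge {U : Type} [Fintype U] [MeasurableSpace U] [MeasurableSingletonClass U] {W : Ω → U}
    (hW : Measurable W) (G : U → ℝ) : ∫ x, G (W x) ∂μ = ∑ w, pr μ W w * G w := by
  rw [← integral_map hW.aemeasurable (measurable_of_finite G).aestronglyMeasurable,
    integral_fintype (Integrable.of_finite)]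
  refine Finset.sum_congr rfl fun w _ => ?_
  rw [smul_eq_mul, pr, map_measureReal_apply hW (measurableSet_singleton w)]

lemma pr_sum {U : Type} [Fintype U] [MeasurableSpace U] [MeasurableSingletonClass U] {W : Ω → U}
    (hW : Measurable W) : ∑ w, pr μ W w = 1 := by
  have := bridge μ hW (fun _ => 1)
  simpa using this.symm

lemma pr_marg {U V : Type} [Fintype U] [MeasurableSpace U] [MeasurableSingletonClass U]
    [Fintype V] [MeasurableSpace V] [MeasurableSingletonClass V] {z : Ω → V} {u : Ω → U}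
    (hz : Measurable z) (hu : Measurable u) (w : U) :
    pr μ u w = ∑ a, pr μ (fun x => (z x, u x)) (a, w) := by
  classical
  have h1 := bridge μ hu (fun w' => if w' = w then 1 else 0)
  have h2 := bridge μ (hz.prodMk hu) (fun p => if p.2 = w then 1 else 0)
  simp only at h2
  rw [h1, Fintype.sum_prod_type] at h2
  simpa using h2

lemma ent_step {U : Type} [Fintype U] [MeasurableSpace U] [MeasurableSingletonClass U] {m : ℕ}
    {z : Ω → Fin m} {u : Ω → U} (hz : Measurable z) (hu : Measurable u) {ε : ℝ} (hε : 0 < ε)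
    (g : Fin m → U → ℝ) :
    ent μ (fun x => (z x, u x)) ≤ ent μ u + m * ε +
      (∑ a, ∫ x, ((if z x = a then 1 else 0) - g a (u x)) ^ 2 ∂μ) / ε := by
  have h1 : ∀ a, ∫ x, ((if z x = a then 1 else 0) - g a (u x)) ^ 2 ∂μ =
      ∑ w, ∑ b, pr μ (fun x => (z x, u x)) (b, w) * ((if b = a then 1 else 0) - g a w) ^ 2 := by
    intro a
    rw [bridge μ (hz.prodMk hu) (fun p => ((if p.1 = a then 1 else 0) - g a p.2) ^ 2),
      Fintype.sum_prod_type, Finset.sum_comm]
  have h0 : ent μ (fun x => (z x, u x)) =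
      ∑ w, ∑ b, Real.negMulLog (pr μ (fun x => (z x, u x)) (b, w)) := by
    rw [ent, Fintype.sum_prod_type, Finset.sum_comm]
  simp only [h1]
  rw [Finset.sum_comm, h0, ent, Finset.sum_div]
  have h2 : (m : ℝ) * ε = ∑ w, m * ε * pr μ u w := by rw [← Finset.mul_sum, pr_sum μ hu, mul_one]
  rw [h2, ← Finset.sum_add_distrib, ← Finset.sum_add_distrib]
  refine Finset.sum_le_sum fun w _ => ?_
  rw [pr_marg μ hz hu w]
  exact step_pt _ (fun a => pr_nonneg μ _ _) hε (fun a => g a w)

omit [IsProbabilityMeasure μ] in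
lemma ent_equiv {U V : Type} [Fintype U] [Fintype V] (e : U ≃ V) (W : Ω → U) :
    ent μ (fun x => e (W x)) = ent μ W := by
  unfold ent
  rw [← e.sum_comp]
  refine Finset.sum_congr rfl fun w _ => ?_
  unfold pr
  congr 2
  ext x; simp

omit [IsProbabilityMeasure μ] in
lemma ent_comp {U : Type} [Fintype U] [MeasurableSpace U] [MeasurableSingletonClass U] {W : Ω → U}
    (hW : Measurable W) {T : Ω → Ω} (hT : MeasurePreserving T μ μ) :
    ent μ (fun x => W (T x)) = ent μ W := by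
  unfold ent
  refine Finset.sum_congr rfl fun w _ => ?_
  unfold pr
  congr 1
  exact hT.measureReal_preimage (hW (measurableSet_singleton w)).nullMeasurableSet

lemma int_comp {U : Type} [Fintype U] [MeasurableSpace U] [MeasurableSingletonClass U] {W : Ω → U}
    (hW : Measurable W) {T : Ω → Ω} (hT : MeasurePreserving T μ μ) (G : U → ℝ) :
    ∫ x, G (W (T x)) ∂μ = ∫ x, G (W x) ∂μ := by
  rw [bridge μ hW, bridge μ (W := fun x => W (T x)) (hW.comp hT.measurable)]
  refine Finset.sum_congr rfl fun w _ => ?_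
  unfold pr
  congr 1
  exact hT.measureReal_preimage (hW (measurableSet_singleton w)).nullMeasurableSet

end

lemma no_growth {H : ℕ → ℝ} {c : ℝ} (hc : 0 < c) (h : ∀ n : ℕ, c * n ≤ H n) {T : ℕ}
    (hT : ∀ t, T ≤ t → H (t + 1) ≤ H t + c / 2) : False := by
  have h1 : ∀ k : ℕ, H (T + k) ≤ H T + k * (c / 2) := by
    intro k
    induction k with
    | zero => simp
    | succ k ih =>
      have := hT (T + k) (by omega)
      rw [← add_assoc]; push_cast; linarith
  obtain ⟨k, hk⟩ := exists_nat_gt (H T / (c / 2))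
  rw [div_lt_iff₀ (by positivity)] at hk
  have h2 := h (T + k)
  have h3 := h1 k
  push_cast at h2
  have : (0 : ℝ) ≤ c * T := by positivity
  nlinarith

def Wd {m : ℕ} (f : ℕ → Fin m) (n : ℕ) (x : ℕ → ℕ) : Fin n → Fin m := fun i => f (x i)

def sh (k : ℕ) (x : ℕ → ℕ) : ℕ → ℕ := fun n => x (n + k)

lemma meas_lt {m : ℕ} (f : ℕ → Fin m) (t : ℕ) : Measurable fun x : ℕ → ℕ => f (x t) :=
  (measurable_of_countable f).comp (measurable_pi_apply t)

lemma meas_Wd {m : ℕ} (f : ℕ → Fin m) (n : ℕ) : Measurable (Wd f n) :=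
  measurable_pi_lambda _ fun i => meas_lt f i

lemma sh_mp {μ : Measure (ℕ → ℕ)} (h : MeasurePreserving (sh 1) μ μ) (k : ℕ) :
    MeasurePreserving (sh k) μ μ := by
  induction k with
  | zero => exact MeasurePreserving.id μ
  | succ k ih =>
    have := h.comp ih
    convert this using 1
    funext x n
    simp only [sh, Function.comp]
    congr 1; omega

lemma eps_ex (m : ℕ) {c : ℝ} (hc : 0 < c) : ∃ ε : ℝ, 0 < ε ∧ m * ε + m * ε ^ 2 / ε ≤ c / 2 := by
  refine ⟨c / (4 * (m + 1)), by positivity, ?_⟩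
  have : (m : ℝ) * (c / (4 * (m + 1))) + m * (c / (4 * (m + 1))) ^ 2 / (c / (4 * (m + 1))) =
      c / 2 * (m / (m + 1)) := by field_simp; ring
  rw [this]
  refine mul_le_of_le_one_right (by positivity) ?_
  rw [div_le_one (by positivity)]; linarith

lemma innov_fwd (μ : Measure (ℕ → ℕ)) [IsProbabilityMeasure μ] (h : MeasurePreserving (sh 1) μ μ)
    {m : ℕ} (f : ℕ → Fin m) {c : ℝ} (hc : 0 < c) (hH : ∀ n : ℕ, c * n ≤ ent μ (Wd f n)) :
    ∃ a : Fin m, ∃ d : ℝ, 0 < d ∧ ∀ t, ∀ g : (Fin t → Fin m) → ℝ,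
      d ≤ ∫ x, ((if f (x t) = a then 1 else 0) - g (Wd f t x)) ^ 2 ∂μ := by
  by_contra hcon
  push Not at hcon
  obtain ⟨ε, hε, hε2⟩ := eps_ex m hc
  choose t g hg using fun a => hcon a (ε ^ 2) (by positivity)
  refine no_growth hc hH (T := Finset.univ.sup t) fun n hn => ?_
  have hta : ∀ a, t a ≤ n := fun a => (Finset.le_sup (Finset.mem_univ a)).trans hn
  have e1 : ent μ (Wd f (n + 1)) = ent μ (fun x => (f (x n), Wd f n x)) := by
    rw [← ent_equiv μ (Fin.snocEquiv fun _ : Fin (n + 1) => Fin m).symm]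
    rfl
  have e2 := ent_step μ (meas_lt f n) (meas_Wd f n) hε
    (fun a u => g a fun i => u ⟨i + (n - t a), by have := i.2; have := hta a; omega⟩)
  have e3 : ∀ a, ∫ x, ((if f (x n) = a then 1 else 0) -
      g a fun i => Wd f n x ⟨i + (n - t a), by have := i.2; have := hta a; omega⟩) ^ 2 ∂μ ≤ ε ^ 2 := by
    intro a
    refine le_trans (le_of_eq ?_) (hg a).le
    rw [← int_comp μ ((meas_lt f (t a)).prodMk (meas_Wd f (t a))) (sh_mp h (n - t a))
      (fun p => ((if p.1 = a then 1 else 0) - g a p.2) ^ 2)]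
    congr 1
    funext x
    have : t a + (n - t a) = n := by have := hta a; omega
    simp only [sh, this]
    rfl
  have e4 := Finset.sum_le_sum fun a (_ : a ∈ Finset.univ) => e3 a
  rw [Finset.sum_const, Finset.card_univ, Fintype.card_fin, nsmul_eq_mul] at e4
  have e5 := div_le_div_of_nonneg_right e4 hε.le
  linarith

lemma innov_bwd (μ : Measure (ℕ → ℕ)) [IsProbabilityMeasure μ] (h : MeasurePreserving (sh 1) μ μ)
    {m : ℕ} (f : ℕ → Fin m) {c : ℝ} (hc : 0 < c) (hH : ∀ n : ℕ, c * n ≤ ent μ (Wd f n)) :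
    ∃ a : Fin m, ∃ d : ℝ, 0 < d ∧ ∀ t, ∀ g : (Fin t → Fin m) → ℝ,
      d ≤ ∫ x, ((if f (x 0) = a then 1 else 0) - g (Wd f t (sh 1 x))) ^ 2 ∂μ := by
  by_contra hcon
  push Not at hcon
  obtain ⟨ε, hε, hε2⟩ := eps_ex m hc
  choose t g hg using fun a => hcon a (ε ^ 2) (by positivity)
  refine no_growth hc hH (T := Finset.univ.sup t) fun n hn => ?_
  have hta : ∀ a, t a ≤ n := fun a => (Finset.le_sup (Finset.mem_univ a)).trans hn
  have e1 : ent μ (Wd f (n + 1)) = ent μ (fun x => (f (x 0), Wd f n (sh 1 x))) := by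
    rw [← ent_equiv μ (Fin.consEquiv fun _ : Fin (n + 1) => Fin m).symm]
    rfl
  have e2 := ent_step μ (meas_lt f 0) ((meas_Wd f n).comp h.measurable) hε
    (fun a u => g a fun i => u ⟨i, by have := i.2; have := hta a; omega⟩)
  have e0 := ent_comp μ (meas_Wd f n) h
  have e3 : ∀ a, ∫ x, ((if f (x 0) = a then 1 else 0) -
      g a fun i => Wd f n (sh 1 x) ⟨i, by have := i.2; have := hta a; omega⟩) ^ 2 ∂μ ≤ ε ^ 2 :=
    fun a => (hg a).le
  have e4 := Finset.sum_le_sum fun a (_ : a ∈ Finset.univ) => e3 a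
  rw [Finset.sum_const, Finset.card_univ, Fintype.card_fin, nsmul_eq_mul] at e4
  have e5 := div_le_div_of_nonneg_right e4 hε.le
  simp only [Function.comp_def] at e2
  linarith

end Pool.Agent.H.MP_03548f_an
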