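import Mathlib
import Pool.Agent.H.MP_03548f_an.Ent

set_option autoImplicit false

namespace Pool.Agent.H.MP_03548f_an

open MeasureTheory Set Filter Topology BoundedContinuousFunction
open scoped ENNReal

def TT (k : ℕ) : (ℕ → ℕ) × (ℕ → ℕ) → (ℕ → ℕ) × (ℕ → ℕ) := Prod.map (sh k) (sh k)

lemma sh_cont (k : ℕ) : Continuous (sh k) := continuous_pi fun n => continuous_apply (n + k)

lemma TT_cont (k : ℕ) : Continuous (TT k) := (sh_cont k).prodMap (sh_cont k)

lemma TT_succ (k : ℕ) (p : (ℕ → ℕ) × (ℕ → ℕ)) : TT 1 (TT k p) = TT (k + 1) p := by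
  ext n
  · simp only [TT, Prod.map_fst, sh]; exact congrArg p.1 (by omega)
  · simp only [TT, Prod.map_snd, sh]; exact congrArg p.2 (by omega)

noncomputable def avg (ξ : Measure ((ℕ → ℕ) × (ℕ → ℕ))) (N : ℕ) : Measure ((ℕ → ℕ) × (ℕ → ℕ)) :=
  ((N + 1 : ℕ) : ℝ≥0∞)⁻¹ • ∑ t ∈ Finset.range (N + 1), ξ.map (TT t)

instance avg_prob (ξ : Measure ((ℕ → ℕ) × (ℕ → ℕ))) [IsProbabilityMeasure ξ] (N : ℕ) :
    IsProbabilityMeasure (avg ξ N) := by
  constructor
  have : ∀ t, ξ.map (TT t) univ = 1 := fun t => by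
    rw [Measure.map_apply (TT_cont t).measurable MeasurableSet.univ]; simp
  simp only [avg, Measure.smul_apply, Measure.coe_finsetSum, Finset.sum_apply, this,
    Finset.sum_const, Finset.card_range, nsmul_eq_mul, mul_one, smul_eq_mul]
  exact ENNReal.inv_mul_cancel (by simp) (by simp)

lemma avg_int (ξ : Measure ((ℕ → ℕ) × (ℕ → ℕ))) [IsProbabilityMeasure ξ] (N : ℕ)
    (g : ((ℕ → ℕ) × (ℕ → ℕ)) →ᵇ ℝ) :
    ∫ p, g p ∂(avg ξ N) = ((N : ℝ) + 1)⁻¹ * ∑ t ∈ Finset.range (N + 1), ∫ p, g (TT t p) ∂ξ := by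
  rw [avg, integral_smul_measure, integral_finsetSum_measure (fun t _ => g.integrable _)]
  rw [smul_eq_mul]
  congr 1
  · rw [ENNReal.toReal_inv, ENNReal.toReal_natCast]; push_cast; rfl
  · refine Finset.sum_congr rfl fun t _ => ?_
    rw [integral_map (TT_cont t).aemeasurable g.continuous.aestronglyMeasurable]

lemma marg_of {η : Measure ((ℕ → ℕ) × (ℕ → ℕ))} [IsProbabilityMeasure η] {μ : Measure (ℕ → ℕ)}
    [IsProbabilityMeasure μ] {π : (ℕ → ℕ) × (ℕ → ℕ) → (ℕ → ℕ)} (hπ : Continuous π)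
    (h : ∀ g : (ℕ → ℕ) →ᵇ ℝ, ∫ p, g.compContinuous ⟨π, hπ⟩ p ∂η = ∫ x, g x ∂μ) : η.map π = μ := by
  refine ext_of_forall_integral_eq_of_IsFiniteMeasure fun g => ?_
  rw [integral_map hπ.aemeasurable g.continuous.aestronglyMeasurable, ← h g]
  rfl

lemma avg_marg {ξ : Measure ((ℕ → ℕ) × (ℕ → ℕ))} [IsProbabilityMeasure ξ] {μ : Measure (ℕ → ℕ)}
    [IsProbabilityMeasure μ] (hμ : MeasurePreserving (sh 1) μ μ)
    {π : (ℕ → ℕ) × (ℕ → ℕ) → (ℕ → ℕ)} (hπ : Continuous π) (hc : ∀ t p, π (TT t p) = sh t (π p))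
    (h : ξ.map π = μ) (N : ℕ) (g : (ℕ → ℕ) →ᵇ ℝ) :
    ∫ p, g.compContinuous ⟨π, hπ⟩ p ∂(avg ξ N) = ∫ x, g x ∂μ := by
  rw [avg_int]
  have : ∀ t, ∫ p, g.compContinuous ⟨π, hπ⟩ (TT t p) ∂ξ = ∫ x, g x ∂μ := by
    intro t
    have h1 : MeasurePreserving (fun p => sh t (π p)) ξ μ :=
      (sh_mp hμ t).comp ⟨hπ.measurable, h⟩
    rw [← h1.map_eq, integral_map h1.measurable.aemeasurable g.continuous.aestronglyMeasurable]
    simp only [compContinuous_apply, ContinuousMap.coe_mk, hc]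
  simp only [this, Finset.sum_const, Finset.card_range, nsmul_eq_mul]
  push_cast
  field_simp

lemma limit (μ ν : Measure (ℕ → ℕ)) [IsProbabilityMeasure μ] [IsProbabilityMeasure ν]
    (hμ : MeasurePreserving (sh 1) μ μ) (hν : MeasurePreserving (sh 1) ν ν)
    (Q : Set ((ℕ → ℕ) × (ℕ → ℕ))) (hQ : IsClopen Q) (κ : ℝ)
    (ξ : ℕ → Measure ((ℕ → ℕ) × (ℕ → ℕ))) (hp : ∀ N, IsProbabilityMeasure (ξ N))
    (h1 : ∀ N, (ξ N).map Prod.fst = μ) (h2 : ∀ N, (ξ N).map Prod.snd = ν)
    (h3 : ∀ N, ∀ t < N, κ ≤ (ξ N).real (TT t ⁻¹' Q)) :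
    ∃ η : Measure ((ℕ → ℕ) × (ℕ → ℕ)), IsProbabilityMeasure η ∧ MeasurePreserving (TT 1) η η ∧
      η.map Prod.fst = μ ∧ η.map Prod.snd = ν ∧ κ ≤ η.real Q := by
  let a : ℕ → ProbabilityMeasure ((ℕ → ℕ) × (ℕ → ℕ)) := fun N => ⟨avg (ξ (N + 1)) N, inferInstance⟩
  have m1 := fun N => avg_marg hμ continuous_fst (fun _ _ => rfl) (h1 (N + 1)) N
  have m2 := fun N => avg_marg hν continuous_snd (fun _ _ => rfl) (h2 (N + 1)) N
  have hcomp : IsCompact (closure (range a)) := by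
    refine isCompact_closure_of_isTightMeasureSet (IsTightMeasureSet.prodMk ?_ ?_)
    · refine (isTightMeasureSet_singleton (μ := μ)).subset ?_
      rintro _ ⟨_, ⟨_, ⟨N, rfl⟩, rfl⟩, rfl⟩
      exact marg_of (η := avg (ξ (N + 1)) N) continuous_fst (m1 N)
    · refine (isTightMeasureSet_singleton (μ := ν)).subset ?_
      rintro _ ⟨_, ⟨_, ⟨N, rfl⟩, rfl⟩, rfl⟩
      exact marg_of (η := avg (ξ (N + 1)) N) continuous_snd (m2 N)
  obtain ⟨η, -, hη : Tendsto a (hyperfilter ℕ) (𝓝 η)⟩ :=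
    hcomp.ultrafilter_le_nhds ((hyperfilter ℕ).map a)
      (.trans (by simp) (monotone_principal subset_closure))
  rw [ProbabilityMeasure.tendsto_iff_forall_integral_tendsto] at hη
  have hη' : ∀ g : ((ℕ → ℕ) × (ℕ → ℕ)) →ᵇ ℝ, Tendsto (fun N => ∫ p, g p ∂(avg (ξ (N + 1)) N))
      (hyperfilter ℕ) (𝓝 (∫ p, g p ∂(η : Measure _))) := hη
  refine ⟨η, inferInstance, ⟨(TT_cont 1).measurable, ?_⟩, marg_of continuous_fst fun g => ?_,
    marg_of continuous_snd fun g => ?_, ?_⟩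
  · refine ext_of_forall_integral_eq_of_IsFiniteMeasure fun g => ?_
    rw [integral_map (TT_cont 1).aemeasurable g.continuous.aestronglyMeasurable]
    have t1 := (hη' (g.compContinuous ⟨TT 1, TT_cont 1⟩)).sub (hη' g)
    have t2 : Tendsto (fun N => ∫ p, g.compContinuous ⟨TT 1, TT_cont 1⟩ p ∂(avg (ξ (N + 1)) N) -
        ∫ p, g p ∂(avg (ξ (N + 1)) N)) atTop (𝓝 0) := by
      have t3 : Tendsto (fun N : ℕ => ((N : ℝ) + 1)⁻¹ * (2 * ‖g‖)) atTop (𝓝 0) := by
        have := tendsto_one_div_add_atTop_nhds_zero_nat (𝕜 := ℝ).mul_const (2 * ‖g‖)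
        simpa using this
      refine squeeze_zero_norm (fun N => ?_) t3
      rw [avg_int, avg_int, ← mul_sub]
      simp only [compContinuous_apply, ContinuousMap.coe_mk, TT_succ]
      rw [← Finset.sum_sub_distrib,
        Finset.sum_range_sub (fun t => ∫ p, g (TT t p) ∂(ξ (N + 1))), norm_mul,
        Real.norm_of_nonneg (by positivity)]
      refine mul_le_mul_of_nonneg_left ((norm_sub_le _ _).trans ?_) (by positivity)
      have : ∀ t, ‖∫ p, g (TT t p) ∂(ξ (N + 1))‖ ≤ ‖g‖ := fun t => by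
        have := norm_integral_le_of_norm_le_const (μ := ξ (N + 1)) (f := fun p => g (TT t p))
          (C := ‖g‖) (Eventually.of_forall fun p => g.norm_coe_le_norm _)
        simpa using this
      linarith [this (N + 1), this 0]
    have := tendsto_nhds_unique t1 (t2.mono_left Nat.hyperfilter_le_atTop)
    rw [sub_eq_zero] at this
    exact this
  · have t1 := hη' (g.compContinuous ⟨Prod.fst, continuous_fst⟩)
    simp only [m1] at t1
    exact (tendsto_nhds_unique t1 tendsto_const_nhds)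
  · have t1 := hη' (g.compContinuous ⟨Prod.snd, continuous_snd⟩)
    simp only [m2] at t1
    exact (tendsto_nhds_unique t1 tendsto_const_nhds)
  · have t1 := hη' (BoundedContinuousFunction.indicator Q hQ)
    have e0 : ∀ p, BoundedContinuousFunction.indicator Q hQ p = Q.indicator 1 p := fun _ => rfl
    have e1 : ∫ p, BoundedContinuousFunction.indicator Q hQ p ∂(η : Measure _) =
        (η : Measure _).real Q := integral_indicator_one hQ.isOpen.measurableSet
    rw [← e1]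
    refine ge_of_tendsto' t1 fun N => ?_
    rw [avg_int]
    have e2 : ∀ t ∈ Finset.range (N + 1),
        κ ≤ ∫ p, BoundedContinuousFunction.indicator Q hQ (TT t p) ∂(ξ (N + 1)) := by
      intro t ht
      refine (h3 (N + 1) t (Finset.mem_range.1 ht)).trans (le_of_eq ?_)
      rw [← integral_indicator_one ((TT_cont t).measurable hQ.isOpen.measurableSet)]
      rfl
    have e3 := Finset.sum_le_sum e2
    rw [Finset.sum_const, Finset.card_range, nsmul_eq_mul] at e3
    push_cast at e3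
    rw [le_inv_mul_iff₀ (by positivity)]
    exact e3

lemma coup {Ω : Type} [MeasurableSpace Ω] (μ ν : Measure Ω) [IsProbabilityMeasure μ]
    [IsProbabilityMeasure ν] {U V : Type} [Fintype U] [MeasurableSpace U]
    [MeasurableSingletonClass U] [Fintype V] [MeasurableSpace V] [MeasurableSingletonClass V]
    {W : Ω → U} {W' : Ω → V} (hW : Measurable W) (hW' : Measurable W') (R : U → V → ℝ)
    (h0 : ∀ w v, 0 ≤ R w v) (h1 : ∀ v, ∑ w, pr μ W w * R w v = 1)
    (h2 : ∀ w, ∑ v, pr ν W' v * R w v = 1) :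
    ∃ ξ : Measure (Ω × Ω), IsProbabilityMeasure ξ ∧ ξ.map Prod.fst = μ ∧ ξ.map Prod.snd = ν ∧
      ∀ (φ : U → ℝ) (ψ : V → ℝ), ∫ p, φ (W p.1) * ψ (W' p.2) ∂ξ =
        ∑ w, ∑ v, pr μ W w * pr ν W' v * (R w v * (φ w * ψ v)) := by
  classical
  set ξ : Measure (Ω × Ω) := ∑ w, ∑ v, ENNReal.ofReal (R w v) •
    (μ.restrict (W ⁻¹' {w})).prod (ν.restrict (W' ⁻¹' {v})) with hξ
  have hC : ∀ w, MeasurableSet (W ⁻¹' {w}) := fun w => hW (measurableSet_singleton w)
  have hC' : ∀ v, MeasurableSet (W' ⁻¹' {v}) := fun v => hW' (measurableSet_singleton v)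
  have key : ∀ S T : Set Ω, ξ (S ×ˢ T) = ∑ w, ∑ v, ENNReal.ofReal (R w v) *
      (μ (S ∩ W ⁻¹' {w}) * ν (T ∩ W' ⁻¹' {v})) := by
    intro S T
    simp only [hξ, Measure.coe_finsetSum, Finset.sum_apply, Measure.smul_apply, smul_eq_mul,
      Measure.prod_prod, Measure.restrict_apply' (hC _), Measure.restrict_apply' (hC' _)]
  have s1 : ∀ v, ∑ w, ENNReal.ofReal (R w v) * μ (W ⁻¹' {w}) = 1 := by
    intro v
    rw [← ENNReal.ofReal_one, ← h1 v,
      ENNReal.ofReal_sum_of_nonneg fun w _ => mul_nonneg (pr_nonneg μ _ _) (h0 w v)]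
    refine Finset.sum_congr rfl fun w _ => ?_
    rw [ENNReal.ofReal_mul (pr_nonneg μ _ _), pr, ofReal_measureReal, mul_comm]
  have s2 : ∀ w, ∑ v, ENNReal.ofReal (R w v) * ν (W' ⁻¹' {v}) = 1 := by
    intro w
    rw [← ENNReal.ofReal_one, ← h2 w,
      ENNReal.ofReal_sum_of_nonneg fun v _ => mul_nonneg (pr_nonneg ν _ _) (h0 w v)]
    refine Finset.sum_congr rfl fun v _ => ?_
    rw [ENNReal.ofReal_mul (pr_nonneg ν _ _), pr, ofReal_measureReal, mul_comm]
  have m1 : ξ.map Prod.fst = μ := by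
    ext S hS
    rw [Measure.map_apply measurable_fst hS, ← prod_univ, key]
    have := sum_measure_preimage_singleton (μ := μ.restrict S) Finset.univ (f := W)
      (fun w _ => hC w)
    rw [Finset.coe_univ, preimage_univ, Measure.restrict_apply_univ] at this
    rw [← this]
    refine Finset.sum_congr rfl fun w _ => ?_
    rw [Measure.restrict_apply' hS, inter_comm]
    refine Eq.trans ?_ (mul_one _)
    rw [← s2 w, Finset.mul_sum]
    refine Finset.sum_congr rfl fun v _ => ?_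
    rw [univ_inter]; ring
  have m2 : ξ.map Prod.snd = ν := by
    ext S hS
    rw [Measure.map_apply measurable_snd hS, ← univ_prod, key, Finset.sum_comm]
    have := sum_measure_preimage_singleton (μ := ν.restrict S) Finset.univ (f := W')
      (fun w _ => hC' w)
    rw [Finset.coe_univ, preimage_univ, Measure.restrict_apply_univ] at this
    rw [← this]
    refine Finset.sum_congr rfl fun v _ => ?_
    rw [Measure.restrict_apply' hS, inter_comm]
    refine Eq.trans ?_ (mul_one _)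
    rw [← s1 v, Finset.mul_sum]
    refine Finset.sum_congr rfl fun w _ => ?_
    rw [univ_inter]; ring
  have hp : IsProbabilityMeasure ξ := by
    constructor
    have := congrArg (fun m : Measure Ω => m univ) m1
    simpa [Measure.map_apply measurable_fst MeasurableSet.univ] using this
  refine ⟨ξ, hp, m1, m2, fun φ ψ => ?_⟩
  rw [bridge ξ (W := fun p : Ω × Ω => (W p.1, W' p.2))
    ((hW.comp measurable_fst).prodMk (hW'.comp measurable_snd)) (fun q => φ q.1 * ψ q.2),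
    Fintype.sum_prod_type]
  refine Finset.sum_congr rfl fun w _ => Finset.sum_congr rfl fun v _ => ?_
  have e1 : (fun p : Ω × Ω => (W p.1, W' p.2)) ⁻¹' {(w, v)} = (W ⁻¹' {w}) ×ˢ (W' ⁻¹' {v}) := by
    ext p; simp
  have e2 : ξ ((W ⁻¹' {w}) ×ˢ (W' ⁻¹' {v})) =
      ENNReal.ofReal (R w v) * (μ (W ⁻¹' {w}) * ν (W' ⁻¹' {v})) := by
    rw [key, Finset.sum_eq_single w, Finset.sum_eq_single v, inter_self, inter_self]
    · intro v' _ hv
      have : W' ⁻¹' {v} ∩ W' ⁻¹' {v'} = ∅ := by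
        ext x; simp only [mem_inter_iff, mem_preimage, mem_singleton_iff, mem_empty_iff_false,
          iff_false, not_and]
        intro h1 h2; exact hv (h2.symm.trans h1)
      simp [this]
    · simp
    · intro w' _ hw
      have : W ⁻¹' {w} ∩ W ⁻¹' {w'} = ∅ := by
        ext x; simp only [mem_inter_iff, mem_preimage, mem_singleton_iff, mem_empty_iff_false,
          iff_false, not_and]
        intro h1 h2; exact hw (h2.symm.trans h1)
      simp [this]
    · simp
  rw [pr, e1, measureReal_def, e2, ENNReal.toReal_mul, ENNReal.toReal_mul,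
    ENNReal.toReal_ofReal (h0 w v), pr, pr, measureReal_def, measureReal_def]
  ring

end Pool.Agent.H.MP_03548f_an
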