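import Mathlib

set_option autoImplicit false

namespace Pool.Agent.H.MP_03548f_an

open Finset

def Dep {N m : ℕ} (I : ℕ → Prop) (h : (Fin N → Fin m) → ℝ) : Prop :=
  ∀ w w' : Fin N → Fin m, (∀ i : Fin N, I i → w i = w' i) → h w = h w'

lemma Dep.mono {N m : ℕ} {I J : ℕ → Prop} {h : (Fin N → Fin m) → ℝ} (hh : Dep I h)
    (hIJ : ∀ i, I i → J i) : Dep J h := fun w w' hw => hh w w' fun i hi => hw i (hIJ i hi)

lemma cond_ex {N m : ℕ} (P : (Fin N → Fin m) → ℝ) (hP : ∀ w, 0 ≤ P w) (I : ℕ → Prop)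
    (φ : (Fin N → Fin m) → ℝ) (h0 : ∀ w, 0 ≤ φ w ∧ φ w ≤ 1) :
    ∃ q : (Fin N → Fin m) → ℝ, Dep I q ∧ (∀ w, 0 ≤ q w ∧ q w ≤ 1) ∧
      ∀ h, Dep I h → ∑ w, P w * (h w * (φ w - q w)) = 0 := by
  classical
  let r : (Fin N → Fin m) → (Fin N → Fin m) → Prop := fun w w' => ∀ i : Fin N, I i → w i = w' i
  have rsymm : ∀ w w', r w w' → r w' w := fun w w' h i hi => (h i hi).symm
  have rtrans : ∀ w w' w'', r w w' → r w' w'' → r w w'' :=
    fun w w' w'' h h' i hi => (h i hi).trans (h' i hi)
  let Z : (Fin N → Fin m) → ℝ := fun w => ∑ w', if r w w' then P w' else 0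
  let Y : (Fin N → Fin m) → ℝ := fun w => ∑ w', if r w w' then P w' * φ w' else 0
  have riff : ∀ w w' w'', r w w' → (r w w'' ↔ r w' w'') := fun w w' w'' h =>
    ⟨fun h' => rtrans _ _ _ (rsymm _ _ h) h', fun h' => rtrans _ _ _ h h'⟩
  have hZ : ∀ w w', r w w' → Z w = Z w' := fun w w' h =>
    sum_congr rfl fun w'' _ => by simp only [riff w w' w'' h]
  have hY : ∀ w w', r w w' → Y w = Y w' := fun w w' h =>
    sum_congr rfl fun w'' _ => by simp only [riff w w' w'' h]
  have hY0 : ∀ w, 0 ≤ Y w := fun w => sum_nonneg fun w' _ => by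
    split_ifs
    · exact mul_nonneg (hP _) (h0 _).1
    · exact le_rfl
  have hYZ : ∀ w, Y w ≤ Z w := fun w => sum_le_sum fun w' _ => by
    split_ifs
    · exact mul_le_of_le_one_right (hP _) (h0 _).2
    · exact le_rfl
  have hPZ : ∀ w, P w ≤ Z w := fun w => by
    have := single_le_sum (f := fun w' => if r w w' then P w' else 0) (s := univ)
      (fun w' _ => by split_ifs; exacts [hP _, le_rfl]) (mem_univ w)
    rwa [if_pos (fun _ _ => rfl)] at this
  refine ⟨fun w => Y w / Z w, fun w w' h => by simp only [hZ w w' h, hY w w' h], fun w =>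
    ⟨div_nonneg (hY0 w) ((hY0 w).trans (hYZ w)),
      div_le_one_of_le₀ (hYZ w) ((hY0 w).trans (hYZ w))⟩, fun h hh => ?_⟩
  have e1 : ∀ w, P w * (h w * (Y w / Z w)) =
      ∑ w', (if r w' w then P w else 0) * (h w' * (P w' * φ w') / Z w') := by
    intro w
    simp only [Y]
    rw [sum_div, mul_sum, mul_sum]
    refine sum_congr rfl fun w' _ => ?_
    by_cases hr : r w w'
    · rw [if_pos hr, if_pos (rsymm _ _ hr), hZ w w' hr, hh w w' hr]; ring
    · rw [if_neg hr, if_neg (fun h' => hr (rsymm _ _ h'))]; simp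
  have e2 : ∑ w, P w * (h w * (Y w / Z w)) = ∑ w, P w * (h w * φ w) := by
    simp only [e1]
    rw [sum_comm]
    refine sum_congr rfl fun w' _ => ?_
    rw [← sum_mul]
    change Z w' * _ = _
    by_cases hz : Z w' = 0
    · have : P w' = 0 := le_antisymm (hz ▸ hPZ w') (hP _)
      simp [this]
    · field_simp
  simp only [mul_sub, sum_sub_distrib]
  rw [e2, sub_self]

lemma drop_fwd {N m : ℕ} (P : (Fin N → Fin m) → ℝ) (A : ℕ → (Fin N → Fin m) → ℝ)
    (hA : ∀ t, Dep (· < t + 1) (A t))
    (ho : ∀ t h, Dep (· < t) h → ∑ w, P w * (h w * A t w) = 0) (b : ℕ → ℝ) (k : ℕ)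
    (h : (Fin N → Fin m) → ℝ) (hh : Dep (· < k) h) (n : ℕ) :
    ∑ w, P w * (h w * ∏ s ∈ range n, (1 + A (k + s) w * b (k + s))) = ∑ w, P w * h w := by
  induction n with
  | zero => simp
  | succ n ih =>
    have := ho (k + n) (fun w => h w * (∏ s ∈ range n, (1 + A (k + s) w * b (k + s))) * b (k + n))
      (fun w w' hw => by
        have e1 := hh w w' fun i hi => hw i (by simp only at hi ⊢; omega)
        have e2 : ∀ s ∈ range n, 1 + A (k + s) w * b (k + s) = 1 + A (k + s) w' * b (k + s) := by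
          intro s hs
          rw [mem_range] at hs
          rw [hA (k + s) w w' fun i hi => hw i (by simp only at hi ⊢; omega)]
        simp only [e1, prod_congr rfl e2])
    rw [← ih, ← add_zero (∑ w, P w * (h w * ∏ s ∈ range n, _)), ← this, ← sum_add_distrib]
    refine sum_congr rfl fun w _ => ?_
    rw [prod_range_succ]; ring

lemma drop_bwd {N m : ℕ} (P : (Fin N → Fin m) → ℝ) (B : ℕ → (Fin N → Fin m) → ℝ)
    (hB : ∀ t, Dep (t ≤ ·) (B t))
    (ho : ∀ t h, Dep (t < ·) h → ∑ w, P w * (h w * B t w) = 0) (a : ℕ → ℝ) (k : ℕ) :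
    ∀ h : (Fin N → Fin m) → ℝ, Dep (k ≤ ·) h →
    ∑ w, P w * (h w * ∏ s ∈ range k, (1 + a s * B s w)) = ∑ w, P w * h w := by
  induction k with
  | zero => simp
  | succ k ih =>
    intro h hh
    have e1 := ih (fun w => h w * (1 + a k * B k w)) (fun w w' hw => by
      simp only [hh w w' fun i hi => hw i (by simp only at hi ⊢; omega), hB k w w' hw])
    have e2 := ho k (fun w => h w * a k) (fun w w' hw => by simp only [hh w w' hw])
    calc _ = ∑ w, P w * (h w * (1 + a k * B k w) * ∏ s ∈ range k, (1 + a s * B s w)) :=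
          sum_congr rfl fun w _ => by rw [prod_range_succ]; ring
      _ = ∑ w, P w * (h w * (1 + a k * B k w)) := e1
      _ = ∑ w, P w * h w + ∑ w, P w * (h w * a k * B k w) := by
          rw [← sum_add_distrib]; exact sum_congr rfl fun w _ => by ring
      _ = _ := by rw [e2, add_zero]

noncomputable def phi {N m : ℕ} (a : Fin m) (t : ℕ) (w : Fin N → Fin m) : ℝ :=
  if h : t < N then (if w ⟨t, h⟩ = a then 1 else 0) else 0

lemma phi_bd {N m : ℕ} (a : Fin m) (t : ℕ) (w : Fin N → Fin m) :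
    0 ≤ phi a t w ∧ phi a t w ≤ 1 := by
  unfold phi; split_ifs <;> norm_num

lemma phi_dep {N m : ℕ} (a : Fin m) (t : ℕ) : Dep (N := N) (· = t) (phi a t) := by
  intro w w' hw
  unfold phi
  by_cases h : t < N
  · rw [dif_pos h, dif_pos h, hw ⟨t, h⟩ rfl]
  · rw [dif_neg h, dif_neg h]

lemma riesz {N m m' : ℕ} (P : (Fin N → Fin m) → ℝ) (P' : (Fin N → Fin m') → ℝ)
    (hP : ∀ w, 0 ≤ P w) (hP' : ∀ w, 0 ≤ P' w) (sP : ∑ w, P w = 1) (sP' : ∑ w, P' w = 1)
    (a : Fin m) (b : Fin m') :
    ∃ R : (Fin N → Fin m) → (Fin N → Fin m') → ℝ, (∀ w v, 0 ≤ R w v) ∧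
      (∀ v, ∑ w, P w * R w v = 1) ∧ (∀ w, ∑ v, P' v * R w v = 1) ∧
      ∀ t < N, ∃ q q', Dep (· < t) q ∧ Dep (t < ·) q' ∧
        ∑ w, ∑ v, P w * P' v * (R w v * (phi a t w * phi b t v)) =
          (∑ w, P w * phi a t w) * (∑ v, P' v * phi b t v) +
          (∑ w, P w * (phi a t w - q w) ^ 2) * (∑ v, P' v * (phi b t v - q' v) ^ 2) := by
  choose q q1 q2 q3 using fun t : ℕ => cond_ex P hP (· < t) (phi a t) (phi_bd a t)
  choose p p1 p2 p3 using fun t : ℕ => cond_ex P' hP' (t < ·) (phi b t) (phi_bd b t)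
  have hA : ∀ t, Dep (· < t + 1) (fun w => phi a t w - q t w) := fun t w w' hw => by
    simp only [phi_dep a t w w' fun i hi => hw i (by simp only at hi ⊢; omega),
      q1 t w w' fun i hi => hw i (by simp only at hi ⊢; omega)]
  have hB : ∀ t, Dep (t ≤ ·) (fun w => phi b t w - p t w) := fun t w w' hw => by
    simp only [phi_dep b t w w' fun i hi => hw i (by simp only at hi ⊢; omega),
      p1 t w w' fun i hi => hw i (by simp only at hi ⊢; omega)]
  have F := drop_fwd P (fun t w => phi a t w - q t w) hA q3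
  have G := drop_bwd P' (fun t w => phi b t w - p t w) hB p3
  refine ⟨fun w v => ∏ s ∈ range N, (1 + (phi a s w - q s w) * (phi b s v - p s v)),
    fun w v => prod_nonneg fun s _ => ?_, fun v => ?_, fun w => ?_,
    fun t ht => ⟨q t, p t, q1 t, p1 t, ?_⟩⟩
  · have h1 := phi_bd a s w
    have h2 := phi_bd b s v
    have h3 := q2 s w
    have h4 := p2 s v
    have h5 : |(phi a s w - q s w) * (phi b s v - p s v)| ≤ 1 := by
      rw [abs_mul]
      refine mul_le_one₀ (abs_le.2 ⟨by linarith [h1.1, h3.2], by linarith [h1.2, h3.1]⟩)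
        (abs_nonneg _) (abs_le.2 ⟨by linarith [h2.1, h4.2], by linarith [h2.2, h4.1]⟩)
    linarith [(abs_le.1 h5).1]
  · have := F (fun s => phi b s v - p s v) 0 (fun _ => 1) (fun _ _ _ => rfl) N
    simpa [sP] using this
  · have := G (fun s => phi a s w - q s w) N (fun _ => 1) (fun _ _ _ => rfl)
    simpa [sP'] using this
  · obtain ⟨k, rfl⟩ : ∃ k, N = t + 1 + k := ⟨N - (t + 1), by omega⟩
    have s1 : ∀ v, ∑ w, P w * P' v *
        ((∏ s ∈ range (t + 1 + k), (1 + (phi a s w - q s w) * (phi b s v - p s v))) *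
          (phi a t w * phi b t v)) = ∑ w, P w * (P' v * (phi a t w * phi b t v) *
          ∏ s ∈ range (t + 1), (1 + (phi a s w - q s w) * (phi b s v - p s v))) := by
      intro v
      rw [← F (fun s => phi b s v - p s v) (t + 1) (fun w => P' v * (phi a t w * phi b t v) *
          ∏ s ∈ range (t + 1), (1 + (phi a s w - q s w) * (phi b s v - p s v))) ?_ k]
      · refine sum_congr rfl fun w _ => ?_
        rw [prod_range_add]; ring
      · intro w w' hw
        have e2 : ∀ s ∈ range (t + 1), 1 + (phi a s w - q s w) * (phi b s v - p s v) =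
            1 + (phi a s w' - q s w') * (phi b s v - p s v) := by
          intro s hs
          rw [mem_range] at hs
          have := hA s w w' fun i hi => hw i (by simp only at hi ⊢; omega)
          simp only at this
          rw [this]
        simp only [prod_congr rfl e2,
          phi_dep a t w w' fun i hi => hw i (by simp only at hi ⊢; omega)]
    have s2 : ∀ w, ∑ v, P w * (P' v * (phi a t w * phi b t v) *
          ∏ s ∈ range (t + 1), (1 + (phi a s w - q s w) * (phi b s v - p s v))) =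
        ∑ v, P' v * (P w * (phi a t w * phi b t v) *
          (1 + (phi a t w - q t w) * (phi b t v - p t v))) := by
      intro w
      rw [← G (fun s => phi a s w - q s w) t (fun v => P w * (phi a t w * phi b t v) *
          (1 + (phi a t w - q t w) * (phi b t v - p t v))) ?_]
      · refine sum_congr rfl fun v _ => ?_
        rw [prod_range_succ]; ring
      · intro v v' hv
        have := hB t v v' hv
        simp only at this ⊢
        rw [this, phi_dep b t v v' fun i hi => hv i (by simp only at hi ⊢; omega)]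
    have s3 : ∑ w, P w * (phi a t w - q t w) ^ 2 =
        ∑ w, P w * (phi a t w * (phi a t w - q t w)) := by
      rw [← sub_zero (∑ w, P w * (phi a t w * _)), ← q3 t (q t) (q1 t), ← sum_sub_distrib]
      exact sum_congr rfl fun w _ => by ring
    have s4 : ∑ w, P' w * (phi b t w - p t w) ^ 2 =
        ∑ w, P' w * (phi b t w * (phi b t w - p t w)) := by
      rw [← sub_zero (∑ w, P' w * (phi b t w * _)), ← p3 t (p t) (p1 t), ← sum_sub_distrib]
      exact sum_congr rfl fun w _ => by ring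
    rw [sum_comm]
    simp only [s1]
    rw [sum_comm]
    simp only [s2]
    rw [s3, s4, sum_mul_sum, sum_mul_sum, ← sum_add_distrib]
    refine sum_congr rfl fun w _ => ?_
    rw [← sum_add_distrib]
    exact sum_congr rfl fun v _ => by ring

end Pool.Agent.H.MP_03548f_an
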